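import Pool.Agent.helper45.SGC.Spec

set_option autoImplicit false

namespace Pool.Agent.SGC

open Finset Pool.Agent.helper38.Neg Pool.Agent.helper55.NT

/-- the linear map `γ ↦ Mv v γ` -/
def SPN_L {r t : ℕ} (v : Fin r → Fin 3 → Fin t) : Sg t →ₗ[ZMod 2] (Fin r → ZMod 2) where
  toFun := Mv v
  map_add' x y := by
    funext e
    simp [Mv, Finset.sum_add_distrib]
  map_smul' a x := by
    funext e
    simp [Mv, Finset.mul_sum]

/-- the words orthogonal to the image of `H` -/
def SPN_A {r t : ℕ} (v : Fin r → Fin 3 → Fin t) (H : Submodule (ZMod 2) (Sg t)) : Submodule (ZMod 2) (Fin r → ZMod 2) where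
  carrier := {y | ∀ γ ∈ H, ∑ e, y e * Mv v γ e = 0}
  add_mem' := by
    intro a b ha hb γ hγ
    have h1 : ∑ e, (a + b) e * Mv v γ e = (∑ e, a e * Mv v γ e) + ∑ e, b e * Mv v γ e := by
      rw [← Finset.sum_add_distrib]
      refine Finset.sum_congr rfl fun e _ => ?_
      rw [Pi.add_apply, add_mul]
    rw [h1, ha γ hγ, hb γ hγ, add_zero]
  zero_mem' := by
    intro γ _
    simp
  smul_mem' := by
    intro c a ha γ hγ
    have h1 : ∑ e, (c • a) e * Mv v γ e = c * ∑ e, a e * Mv v γ e := by
      rw [Finset.mul_sum]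
      refine Finset.sum_congr rfl fun e _ => ?_
      rw [Pi.smul_apply, smul_eq_mul, mul_assoc]
    rw [h1, ha γ hγ, mul_zero]

theorem SPN_compl {r : ℕ} (y : Fin r → ZMod 2) : hw (y + 1) + hw y = r := by
  unfold hw
  have h1 : (univ.filter fun e => (y + 1) e ≠ 0) = univ.filter fun e => ¬ (y e ≠ 0) := by
    refine Finset.filter_congr fun e _ => ?_
    rw [Pi.add_apply, Pi.one_apply]
    generalize y e = z
    revert z
    decide
  rw [h1, add_comm]
  have h2 := Finset.card_filter_add_card_filter_not (s := (univ : Finset (Fin r))) (fun e => y e ≠ 0)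
  rw [h2, Finset.card_univ, Fintype.card_fin]

theorem SPN_light {r : ℕ} (y w : Fin r → ZMod 2) (U : Finset (Fin r)) (h : ∀ e, y e ≠ 0 → e ∈ U) (hw' : ∀ e ∈ U, w e = 0) :
    ∑ e, y e * w e = 0 := by
  refine Finset.sum_eq_zero fun e _ => ?_
  by_cases h1 : y e = 0
  · rw [h1, zero_mul]
  · rw [hw' e (h e h1), mul_zero]

theorem SPN (hLGT : LGT_stmt) (hDUA : DUA_stmt) : SPN_stmt := by
  intro r t c v H hc hcr hbal hH
  have hAA : ∀ y ∈ SPN_A v H, hw y ≤ c ∨ r - c ≤ hw y := by
    intro y hy
    by_contra hn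
    rw [not_or, not_le, not_le] at hn
    obtain ⟨γ, hγ, h1⟩ := hH y hn.1 hn.2
    exact h1 (hy γ hγ)
  obtain ⟨U, hU, hUA⟩ := hLGT r c (SPN_A v H) hcr hAA
  refine ⟨U, hU, ?_, ?_⟩
  · intro e he
    have h1 : (Pi.single e 1 : Fin r → ZMod 2) ∈ SPN_A v H := by
      intro γ hγ
      rw [Finset.sum_eq_single e]
      · rw [he γ hγ, mul_zero]
      · intro b _ hb
        rw [Pi.single_eq_of_ne hb, zero_mul]
      · intro h
        exact absurd (Finset.mem_univ e) h
    have h2 : hw (Pi.single e 1 : Fin r → ZMod 2) ≤ c := by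
      refine le_trans ?_ hc
      unfold hw
      rw [Finset.card_le_one]
      intro a ha b hb
      have h3 : ∀ a : Fin r, a ∈ (univ.filter fun e' => (Pi.single e 1 : Fin r → ZMod 2) e' ≠ 0) → a = e := by
        intro a ha
        by_contra hne
        rw [Finset.mem_filter] at ha
        exact ha.2 (Pi.single_eq_of_ne hne 1)
      rw [h3 a ha, h3 b hb]
    exact hUA _ h1 h2 e (by rw [Pi.single_eq_same]; exact one_ne_zero)
  · intro w hw0 hwU
    have h1 : w ∈ H.map (SPN_L v) := by
      refine hDUA r (H.map (SPN_L v)) w fun y hy => ?_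
      have hyA : y ∈ SPN_A v H := fun γ hγ => hy _ (Submodule.mem_map_of_mem (f := SPN_L v) hγ)
      rcases hAA y hyA with h | h
      · exact SPN_light y w U (hUA y hyA h) hwU
      · have hy1 : y + 1 ∈ SPN_A v H := by
          intro γ hγ
          have h2 : ∑ e, (y + 1) e * Mv v γ e = (∑ e, y e * Mv v γ e) + ∑ e, Mv v γ e := by
            rw [← Finset.sum_add_distrib]
            refine Finset.sum_congr rfl fun e _ => ?_
            rw [Pi.add_apply, Pi.one_apply, add_mul, one_mul]
          rw [h2, hyA γ hγ, hbal γ hγ, add_zero]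
        have h3 : hw (y + 1) ≤ c := by
          have := SPN_compl y
          omega
        have h4 := SPN_light (y + 1) w U (hUA _ hy1 h3) hwU
        have h5 : ∑ e, (y + 1) e * w e = (∑ e, y e * w e) + ∑ e, w e := by
          rw [← Finset.sum_add_distrib]
          refine Finset.sum_congr rfl fun e _ => ?_
          rw [Pi.add_apply, Pi.one_apply, add_mul, one_mul]
        rw [h5, hw0, add_zero] at h4
        exact h4
    obtain ⟨γ, hγ, h2⟩ := h1
    exact ⟨γ, hγ, h2⟩

end Pool.Agent.SGC
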